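import Pool.Agent.Lib_helper25.Stk.Final

set_option autoImplicit false

open Set Filter Topology

namespace Pool.Agent.Results.MP_06c979_gt.ImageNotStackel

/-- The linear order `L` is a symmetric topological well-order of the space `X`: every nonempty
closed set has a least and a greatest element. -/
def SymmTopWellOrder (X : Type) [TopologicalSpace X] (L : LinearOrder X) : Prop :=
  ∀ C : Set X, IsClosed C → C.Nonempty →
    (∃ a ∈ C, ∀ c ∈ C, L.le a c) ∧ ∃ b ∈ C, ∀ c ∈ C, L.le c b

/-- Stäckel-compact: Hausdorff, with a symmetric topological well-order. -/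
def StackelCompact (X : Type) [TopologicalSpace X] : Prop :=
  T2Space X ∧ ∃ L : LinearOrder X, SymmTopWellOrder X L

theorem iff_lib (X : Type) [TopologicalSpace X] :
    StackelCompact X ↔ Pool.Agent.Lib_helper25.Stk.StackelCompact X := by
  constructor
  · rintro ⟨h, L, hL⟩
    refine ⟨h, L, fun C hC hne => ?_⟩
    obtain ⟨⟨a, ha, ha'⟩, b, hb, hb'⟩ := hL C hC hne
    exact ⟨⟨a, ha, fun c hc => ha' c hc⟩, b, hb, fun c hc => hb' c hc⟩
  · rintro ⟨h, L, hL⟩
    refine ⟨h, L, fun C hC hne => ?_⟩
    obtain ⟨⟨a, ha, ha'⟩, b, hb, hb'⟩ := hL C hC hne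
    exact ⟨⟨a, ha, fun c hc => ha' hc⟩, b, hb, fun c hc => hb' hc⟩

/-- **Q1 has a negative answer.** There are a Stäckel-compact space `X`, a Hausdorff space `Y` and
a continuous map `f : X → Y` whose image, with the subspace topology, is not Stäckel-compact. -/
theorem result : ∃ (X Y : Type) (_ : TopologicalSpace X) (_ : TopologicalSpace Y) (f : X → Y),
    StackelCompact X ∧ T2Space Y ∧ Continuous f ∧ ¬ StackelCompact (Set.range f) := by
  obtain ⟨X, Y, iX, iY, hY, f, hX, hf, hn⟩ := Pool.Agent.Lib_helper25.Stk.final_pr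
  exact ⟨X, Y, iX, iY, f, (iff_lib X).2 hX, hY, hf, fun h => hn ((iff_lib _).1 h)⟩

end Pool.Agent.Results.MP_06c979_gt.ImageNotStackel
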